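import Pool.Agent.Helper23.CC.Spec

/-! CC (helper23), part `DESC`: descent of a contact line to an algebraically closed field. -/

set_option autoImplicit false

namespace Pool.Agent.Helper44.CC.Desc

open MvPolynomial Pool.Agent.Helper23.CC

lemma ev_eq {K τ : Type} [Field K] (x : τ → K) (p : MvPolynomial τ K) :
    eval x p = aeval x p := rfl

/-- A homomorphism from polynomials to a field over `K` can be replaced by a `K`-point. -/
lemma exists_point (K L τ : Type) [Field K] [IsAlgClosed K] [Field L] [Algebra K L] [Finite τ]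
    (u : τ → L) : ∃ x : τ → K, ∀ p : MvPolynomial τ K, aeval u p = 0 → eval x p = 0 := by
  set I : Ideal (MvPolynomial τ K) := RingHom.ker (aeval u : MvPolynomial τ K →ₐ[K] L) with hI
  have hne : I ≠ ⊤ := RingHom.ker_ne_top _
  obtain ⟨M, hM, hIM⟩ := Ideal.exists_le_maximal I hne
  obtain ⟨x, hx⟩ := isMaximal_iff_eq_vanishingIdeal_singleton.1 hM
  refine ⟨x, fun p hp => ?_⟩
  have h1 : p ∈ M := hIM (by rw [hI, RingHom.mem_ker]; exact hp)
  rw [hx, mem_vanishingIdeal_iff] at h1
  have h2 := h1 x (Set.mem_singleton x)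
  rwa [← ev_eq] at h2

theorem desc : St_DESC := by
  classical
  intro K L _ _ _ _ n A σ _ _ _ Z own mult F h
  obtain ⟨P, Q, i, j, al, be, c, h1, h2, h3, h4, h5, h6⟩ := h
  -- all coordinates
  set u : (Fin (n + 1) ⊕ Fin (n + 1)) ⊕ ((σ ⊕ σ) ⊕ A) → L :=
    Sum.elim (Sum.elim P Q) (Sum.elim (Sum.elim al be) c) with hu
  obtain ⟨x, hx⟩ := exists_point K L _ u
  have key : ∀ p q : MvPolynomial ((Fin (n + 1) ⊕ Fin (n + 1)) ⊕ ((σ ⊕ σ) ⊕ A)) K,
      aeval u p = aeval u q → eval x p = eval x q := by
    intro p q hpq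
    have := hx (p - q) (by rw [map_sub, hpq, sub_self])
    rwa [map_sub, sub_eq_zero] at this
  refine ⟨fun l => x (.inl (.inl l)), fun l => x (.inl (.inr l)), i, j,
    fun s => x (.inr (.inl (.inl s))), fun s => x (.inr (.inl (.inr s))),
    fun a => x (.inr (.inr a)), ?_, ?_, ?_, ?_, fun s => ?_, fun a y z => ?_⟩
  · have := key (X (.inl (.inl i))) 1 (by simp [hu, h1])
    simpa using this
  · have := key (X (.inl (.inl j))) 0 (by simp [hu, h2])
    simpa using this
  · have := key (X (.inl (.inr i))) 0 (by simp [hu, h3])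
    simpa using this
  · have := key (X (.inl (.inr j))) 1 (by simp [hu, h4])
    simpa using this
  · rcases h5 s with h | h
    · left
      have := key (X (.inr (.inl (.inl s)))) 1 (by simp [hu, h])
      simpa using this
    · right
      have := key (X (.inr (.inl (.inr s)))) 1 (by simp [hu, h])
      simpa using this
  · have h7 := h6 a (algebraMap K L y) (algebraMap K L z)
    set p : MvPolynomial ((Fin (n + 1) ⊕ Fin (n + 1)) ⊕ ((σ ⊕ σ) ⊕ A)) K :=
      aeval (fun l => C y * X (.inl (.inl l)) + C z * X (.inl (.inr l))) (F a) with hp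
    set q : MvPolynomial ((Fin (n + 1) ⊕ Fin (n + 1)) ⊕ ((σ ⊕ σ) ⊕ A)) K :=
      if a ∈ Z then 0 else X (.inr (.inr a)) * ∏ s with own s = a,
        (X (.inr (.inl (.inl s))) * C y + X (.inr (.inl (.inr s))) * C z) ^ mult s with hq
    have e1 : aeval u p = aeval (fun l => algebraMap K L y * P l + algebraMap K L z * Q l) (F a) := by
      rw [hp, ← AlgHom.comp_apply]
      congr 1
      refine MvPolynomial.algHom_ext fun l => ?_
      simp [hu]
    have e2 : aeval u q = if a ∈ Z then 0 else c a * ∏ s with own s = a,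
        (al s * algebraMap K L y + be s * algebraMap K L z) ^ mult s := by
      rw [hq]
      split_ifs with hZ
      · simp
      · simp [hu, map_prod]
    have e3 := key p q (by rw [e1, e2]; exact h7)
    have e4 : eval x p = aeval (fun l => y * x (.inl (.inl l)) + z * x (.inl (.inr l))) (F a) := by
      have : (aeval x : MvPolynomial _ K →ₐ[K] K).comp
          (aeval (fun l => C y * X (.inl (.inl l)) + C z * X (.inl (.inr l)))) =
          (aeval (fun l => y * x (.inl (.inl l)) + z * x (.inl (.inr l))) :
            MvPolynomial (Fin (n + 1)) K →ₐ[K] K) := by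
        refine MvPolynomial.algHom_ext fun l => ?_
        simp
      rw [← this, AlgHom.comp_apply, ← hp]
      exact ev_eq x p
    have e5 : eval x q = if a ∈ Z then 0 else x (.inr (.inr a)) * ∏ s with own s = a,
        (x (.inr (.inl (.inl s))) * y + x (.inr (.inl (.inr s))) * z) ^ mult s := by
      rw [hq]
      split_ifs with hZ
      · simp
      · simp [map_prod]
    rw [← e4, e3, e5]

end Pool.Agent.Helper44.CC.Desc
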